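import Pool.Agent.H.MP_3e56e8_al.Mob

namespace Pool.Agent.H.MP_3e56e8_al
open Finset MulAction
open scoped Pointwise Classical

variable {G : Type} [Group G] [Fintype G] {p : ℕ} [hp : Fact p.Prime] (s : ℕ)

noncomputable def ND (p s : ℕ) (I : Finset ℕ) (D : Subgroup G) : ℕ :=
  Nat.card {U : I → Subgroup G // ((∀ c, Nat.card (U c) = p ^ (s - c)) ∧
    ∀ c c' : I, c'.1 ≤ c.1 → U c ≤ U c') ∧ ∀ c, U c ≤ D}

noncomputable def AA (p s : ℕ) (J : Finset ℕ) (D : Subgroup G) : ℤ :=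
  ∑ I ∈ J.powerset, (-1) ^ #I * (ND p s I D : ℤ)

omit hp in
theorem ND_insert {a : ℕ} {I : Finset ℕ} (h : ∀ x ∈ I, a < x) (D : Subgroup G) :
    (ND p s (insert a I) D : ℤ) =
      ∑ V : Subgroup G, if V ≤ D ∧ Nat.card V = p ^ (s - a) then (ND p s I V : ℤ) else 0 := by
  have ha : a ∉ I := fun h' => lt_irrefl a (h a h')
  rw [← sum_filter, sum_subtype (p := fun V : Subgroup G => V ≤ D ∧ Nat.card V = p ^ (s - a))
    (F := inferInstance) _ (by simp), ← Nat.cast_sum]
  congr 1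
  simp only [ND]
  rw [← Nat.card_sigma]
  refine Nat.card_congr (Equiv.ofBijective (fun U => ⟨⟨U.1 ⟨a, mem_insert_self a I⟩, U.2.2 _,
    U.2.1.1 _⟩, fun c => U.1 ⟨c, mem_insert_of_mem c.2⟩, ⟨fun c => U.2.1.1 _,
      fun c c' k => U.2.1.2 _ _ k⟩, fun c => U.2.1.2 _ _ (h c c.2).le⟩) ⟨fun U U' e => ?_, ?_⟩)
  · refine Subtype.ext (funext fun ⟨c, hc⟩ => ?_)
    rcases mem_insert.1 hc with rfl | hc'
    · exact congrArg (·.1.1) e
    · exact congrArg (·.2.1 ⟨c, hc'⟩) e
  · rintro ⟨⟨V, v1, v2⟩, W, ⟨w1, w2⟩, w3⟩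
    have hne : ∀ c : I, c.1 ≠ a := fun c => (h c c.2).ne'
    refine ⟨⟨fun c => if k : c.1 = a then V else W ⟨c, (mem_insert.1 c.2).resolve_left k⟩,
      ⟨fun c => ?_, fun c c' k => ?_⟩, fun c => ?_⟩, ?_⟩
    · beta_reduce
      split_ifs with k
      · rw [v2, k]
      · exact w1 _
    · beta_reduce
      split_ifs with k1 k2 k2
      · rfl
      · exact absurd (h _ ((mem_insert.1 c'.2).resolve_left k2)) (by omega)
      · exact w3 _
      · exact w2 _ _ k
    · beta_reduce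
      split_ifs
      · exact v1
      · exact (w3 _).trans v1
    · refine Sigma.subtype_ext (Subtype.ext (dif_pos rfl)) (funext fun c => dif_neg (hne c))

omit hp [Fintype G] in
theorem AA_empty (D : Subgroup G) : AA p s ∅ D = 1 := by simp [AA, ND]

omit hp in
theorem AA_insert {a : ℕ} {J : Finset ℕ} (h : ∀ x ∈ J, a < x) (D : Subgroup G) :
    AA p s (insert a J) D = AA p s J D -
      ∑ V : Subgroup G, if V ≤ D ∧ Nat.card V = p ^ (s - a) then AA p s J V else 0 := by
  have ha : a ∉ J := fun h' => lt_irrefl a (h a h')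
  rw [AA, sum_powerset_insert ha, sub_eq_add_neg]
  congr 1
  rw [sum_congr rfl (g := fun I => ∑ V : Subgroup G, if V ≤ D ∧ Nat.card V = p ^ (s - a) then
      -((-1) ^ #I * (ND p s I V : ℤ)) else 0) fun I hI => by
    have hI' := mem_powerset.1 hI
    rw [ND_insert s fun x hx => h x (hI' hx), card_insert_of_notMem fun k => ha (hI' k), mul_sum]
    exact sum_congr rfl fun V _ => by split_ifs <;> ring, sum_comm, ← sum_neg_distrib]
  exact sum_congr rfl fun V _ => by split_ifs <;> simp [AA]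

omit hp in
theorem AA_coef (J : Finset ℕ) : ∃ a : Subgroup G → ℤ,
    (∀ U, a U ≠ 0 → U = ⊥ ∨ ∃ c ∈ J, Nat.card U = p ^ (s - c)) ∧
      ∀ D, AA p s J D = ∑ U : Subgroup G, if U ≤ D then a U else 0 := by
  induction J using Finset.induction_on_min with
  | empty =>
    refine ⟨fun U => if U = ⊥ then 1 else 0, fun U h => Or.inl (by simpa using h), fun D => ?_⟩
    rw [AA_empty, sum_eq_single ⊥ (fun U _ h => by simp [h]) (by simp)]
    simp
  | insert c J h ih =>
    obtain ⟨a, a1, a2⟩ := ih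
    refine ⟨fun U => a U - if Nat.card U = p ^ (s - c) then AA p s J U else 0, fun U hU => ?_,
      fun D => ?_⟩
    · by_cases k : Nat.card U = p ^ (s - c)
      · exact Or.inr ⟨c, mem_insert_self _ _, k⟩
      · exact (a1 U (by simpa only [k, if_false, sub_zero] using hU)).imp id fun ⟨x, h1, h2⟩ => ⟨x, mem_insert_of_mem h1, h2⟩
    · rw [AA_insert s h, a2 D, ← sum_sub_distrib]
      exact sum_congr rfl fun U _ => by by_cases k : U ≤ D <;> simp [k]

omit hp in
theorem AA_cj (J : Finset ℕ) (x : G) (D : Subgroup G) : AA p s J (cj x D) = AA p s J D := by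
  induction J using Finset.induction_on_min generalizing D with
  | empty => rw [AA_empty, AA_empty]
  | insert c J h ih =>
    rw [AA_insert s h, AA_insert s h, ih, ← (cj x).toEquiv.sum_comp]
    simp only [RelIso.coe_fn_toEquiv, (cj x).le_iff_le, card_cj, ih]

theorem AA_zero (J : Finset ℕ) (hJ : ∀ c ∈ J, c ≤ s) (D : Subgroup G)
    (hD : ∃ c ∈ J, Nat.card D = p ^ (s - c)) : AA p s J D = 0 := by
  induction J using Finset.induction_on_min with
  | empty => simp at hD
  | insert a J h ih =>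
    obtain ⟨c, c1, c2⟩ := hD
    rw [AA_insert s h]
    rcases mem_insert.1 c1 with rfl | c1
    · rw [sum_eq_single D (fun V _ k => if_neg fun k' => k (Subgroup.eq_of_le_of_card_ge k'.1
        (c2.trans k'.2.symm).le)) (by simp), if_pos ⟨le_rfl, c2⟩, sub_self]
    · rw [ih (fun x hx => hJ x (mem_insert_of_mem hx)) ⟨c, c1, c2⟩, sum_eq_zero, sub_zero]
      refine fun V _ => if_neg fun k => ?_
      have := Subgroup.card_le_of_le k.1
      rw [k.2, c2, Nat.pow_le_pow_iff_right hp.out.one_lt] at this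
      have := h c c1
      have := hJ c (mem_insert_of_mem c1)
      omega

omit hp in
theorem AA_mob (J : Finset ℕ) (D : Subgroup G) (Y : Subgroup G → Prop) (h0 : Y ⊥)
    (h1 : ∀ U ≤ D, ∀ c ∈ J, Nat.card U = p ^ (s - c) → Y U) (h2 : ∀ U, Y U → U ≤ D) :
    AA p s J D = ∑ H : Subgroup G, if Y H then mob Y H * AA p s J H else 0 := by
  obtain ⟨a, a1, a2⟩ := AA_coef (G := G) (p := p) s J
  rw [sum_congr rfl (g := fun H => ∑ U : Subgroup G, a U * if U ≤ H ∧ Y H then mob Y H else 0)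
    fun H _ => by
      rw [a2 H, mul_sum]
      by_cases k : Y H
      · rw [if_pos k]
        exact sum_congr rfl fun U _ => by by_cases k' : U ≤ H <;> simp [k, k', mul_comm]
      · simp [k], sum_comm, a2 D]
  refine sum_congr rfl fun U _ => ?_
  rw [← mul_sum]
  by_cases k : a U = 0
  · simp [k]
  split_ifs with k'
  · rw [mob_sum ((a1 U k).elim (· ▸ h0) fun ⟨c, c1, c2⟩ => h1 U k' c c1 c2), mul_one]
  · rw [sum_eq_zero fun H _ => if_neg fun h => k' (h.1.trans (h2 H h.2)), mul_zero]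

theorem cnt_le {J : Finset ℕ} (hJ : ∀ c ∈ J, c ≤ s) (r R : ℕ) :
    #{c ∈ J | s - c < R} ≤ #{c ∈ J | s - c ≤ r} + (R - r - 1) := by
  refine (card_le_card (t := {c ∈ J | s - c ≤ r} ∪ Ico (s + 1 - R) (s - r)) fun c hc => ?_).trans
    ((card_union_le _ _).trans (by rw [Nat.card_Ico]; omega))
  simp only [mem_filter, mem_union, mem_Ico] at hc ⊢
  have := hJ c hc.1
  by_cases k : s - c ≤ r
  · exact Or.inl ⟨hc.1, k⟩
  · exact Or.inr (by omega)

theorem pw {a b : ℕ} {x : ℤ} (h : ((p ^ a : ℕ) : ℤ) ∣ x * (p ^ b : ℕ)) :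
    ((p ^ (a - b) : ℕ) : ℤ) ∣ x := by
  rcases le_total a b with k | k
  · simp [k]
  · obtain ⟨c, rfl⟩ := Nat.exists_eq_add_of_le' k
    rw [Nat.add_sub_cancel]
    refine (mul_dvd_mul_iff_right (c := ((p ^ b : ℕ) : ℤ)) ?_).1 (by rwa [← Nat.cast_mul, ← pow_add])
    exact_mod_cast (pow_pos hp.out.pos b).ne'

theorem pgroup {J : Finset ℕ} (hJ : ∀ c ∈ J, c ≤ s) (D : Subgroup G) (r : ℕ)
    (hD : Nat.card D = p ^ r) : ((p ^ #{c ∈ J | s - c ≤ r} : ℕ) : ℤ) ∣ AA p s J D := by
  induction D using WellFoundedLT.induction generalizing r with | ind D ih => ?_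
  by_cases h : ∃ c ∈ J, s - c = r
  · obtain ⟨c, c1, rfl⟩ := h
    rw [AA_zero s J hJ D ⟨c, c1, hD⟩]
    exact dvd_zero _
  push Not at h
  rw [filter_congr (q := fun c => s - c < r) fun c hc => by have := h c hc; omega]
  rcases r with _ | r
  · simp
  rw [AA_mob s J D (· < D) (bot_lt_iff_ne_bot.2 fun e => by
      rw [e, Subgroup.card_bot] at hD
      exact (Nat.one_lt_pow r.succ_ne_zero hp.out.one_lt).ne hD)
    (fun U k c c1 c2 => k.lt_of_ne fun e =>
      h c c1 (Nat.pow_right_injective hp.out.two_le (c2.symm.trans (e ▸ hD)))) fun U k => k.le]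
  refine dvd_sum fun H _ => ?_
  split_ifs with k
  swap
  · exact dvd_zero _
  obtain ⟨n, hn⟩ := IsPGroup.iff_card.1 ((IsPGroup.of_card hD).to_le k.le)
  have h1 := hall hD H k
  rw [hn] at h1
  refine Dvd.dvd.trans ?_ (mul_dvd_mul (pw h1) (ih H k n hn))
  rw [← Nat.cast_mul, ← pow_add]
  have := cnt_le s hJ n (r + 1)
  exact Int.natCast_dvd_natCast.2 (pow_dvd_pow p (by omega))

theorem main {J : Finset ℕ} (hJ : ∀ c ∈ J, c ≤ s) (hs : p ^ s ∣ Nat.card G) :
    ((p ^ #J : ℕ) : ℤ) ∣ AA p s J (⊤ : Subgroup G) := by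
  obtain ⟨P, hP⟩ := Sylow.exists_subgroup_card_pow_prime p hs
  have hP' := IsPGroup.of_card hP
  rw [AA_mob s J ⊤ (fun E => IsPGroup p E) IsPGroup.of_bot (fun U _ c _ h => IsPGroup.of_card h)
    fun _ _ => le_top]
  refine @orbit_sum P _ _ (act P) _ _ _ (fun x E => ?_) fun D => ?_
  · change (if IsPGroup p (cj x.1 E) then mob _ (cj x.1 E) * AA p s J (cj x.1 E) else 0) = _
    simp only [pg_cj, mob_inv (Y := fun E : Subgroup G => IsPGroup p E) (cj x.1) (pg_cj x.1), AA_cj]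
  split_ifs with k
  swap
  · simp
  obtain ⟨n, hn⟩ := IsPGroup.iff_card.1 k
  have h1 := mul_dvd_mul_left (@stabilizer P _ _ (act P) D).index.cast
    ((brown D k _ (hP'.to_le inf_le_left) inf_le_right).trans (mul_dvd_mul_left _
      (Int.natCast_dvd_natCast.2 (Subgroup.card_dvd_of_le inf_le_right))))
  rw [← Nat.cast_mul, stab, hP, hn, ← mul_assoc] at h1
  rw [← mul_assoc]
  rcases lt_or_ge n s with hs' | hs'
  · refine Dvd.dvd.trans ?_ (mul_dvd_mul (pw h1) (pgroup s hJ D n hn))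
    rw [← Nat.cast_mul, ← pow_add]
    have := cnt_le s hJ n (s + 1)
    rw [filter_true_of_mem fun c _ => by omega] at this
    exact Int.natCast_dvd_natCast.2 (pow_dvd_pow p (by omega))
  · have := pgroup s hJ D n hn
    rw [filter_true_of_mem fun c _ => by omega] at this
    exact this.mul_left _

end Pool.Agent.H.MP_3e56e8_al
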