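import Mathlib

namespace Pool.Agent.H.MP_3e56e8_al
open Finset MulAction
open scoped Pointwise Classical

section
variable {α : Type} [Fintype α] [PartialOrder α]

noncomputable def mob (Y : α → Prop) : α → ℤ :=
  wellFounded_gt.fix fun E r => 1 - ∑ F : α, if h : E < F ∧ Y F then r F h.1 else 0

theorem mob_eq (Y : α → Prop) (E : α) :
    mob Y E = 1 - ∑ F : α, if E < F ∧ Y F then mob Y F else 0 := by
  rw [mob, WellFounded.fix_eq]; simp only [dite_eq_ite]

theorem split_le {Y : α → Prop} {E : α} (h : Y E) (g : α → ℤ) :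
    (∑ F : α, if E ≤ F ∧ Y F then g F else 0) = g E + ∑ F : α, if E < F ∧ Y F then g F else 0 := by
  rw [← add_sum_erase _ _ (mem_univ E), ← add_sum_erase _ _ (mem_univ E)]
  simp only [le_refl, h, lt_irrefl, and_self, if_true, false_and, if_false, zero_add]
  congr 1
  exact sum_congr rfl fun F hF => by simp only [lt_iff_le_and_ne, (ne_of_mem_erase hF).symm,
    ne_eq, not_false_iff, and_true]

theorem mob_sum {Y : α → Prop} {E : α} (h : Y E) :
    (∑ F : α, if E ≤ F ∧ Y F then mob Y F else 0) = 1 := by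
  rw [split_le h, mob_eq Y E]; ring

theorem mob_inv {Y : α → Prop} (e : α ≃o α) (he : ∀ F, Y (e F) ↔ Y F) (E : α) :
    mob Y (e E) = mob Y E := by
  induction E using WellFoundedGT.induction with | ind E ih => ?_
  rw [mob_eq, mob_eq Y E, ← e.toEquiv.sum_comp]
  congr 1
  refine sum_congr rfl fun F _ => ?_
  simp only [RelIso.coe_fn_toEquiv, e.lt_iff_lt, he]
  split_ifs with h
  · exact ih F h.1
  · rfl
end

theorem orbit_sum {R Ω : Type} [Group R] [MulAction R Ω] [Fintype Ω] (g : Ω → ℤ) (n : ℤ)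
    (hg : ∀ (x : R) ω, g (x • ω) = g ω) (h : ∀ ω, n ∣ (stabilizer R ω).index * g ω) :
    n ∣ ∑ ω, g ω := by
  rw [← sum_fiberwise univ (Quotient.mk (orbitRel R Ω))]
  refine dvd_sum fun q _ => ?_
  obtain ⟨ω, rfl⟩ := q.exists_rep
  rw [sum_congr rfl (g := fun _ => g ω) fun ω' h' => by
    obtain ⟨x, rfl⟩ := Quotient.exact (mem_filter.1 h').2
    exact hg x ω, sum_const, nsmul_eq_mul]
  refine (congrArg (fun k : ℕ => n ∣ k * g ω) ?_).mp (h ω)
  rw [index_stabilizer, ← Set.ncard_coe_finset]
  congr 1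
  ext ω'
  simp [Quotient.eq, orbitRel_apply]

variable {G : Type} [Group G] [Fintype G] {p : ℕ} [hp : Fact p.Prime]

noncomputable instance : Fintype (Subgroup G) := Fintype.ofFinite _

theorem count (R H : Subgroup G) {Y : Subgroup G → Prop} :
    (∑ E : Subgroup G, if H ≤ E ∧ Y E then mob Y E * Nat.card (R ⊓ E : Subgroup G) else 0) =
      ∑ x : G, if x ∈ R then
        ∑ E : Subgroup G, if H ⊔ Subgroup.zpowers x ≤ E ∧ Y E then mob Y E else 0 else 0 := by
  rw [sum_congr rfl (s₁ := univ (α := G)) (g := fun x => ∑ E : Subgroup G,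
    if H ≤ E ∧ Y E then mob Y E * if x ∈ R ⊓ E then 1 else 0 else 0) fun x _ => by
      by_cases h1 : x ∈ R
      · rw [if_pos h1]
        refine sum_congr rfl fun E _ => ?_
        by_cases h2 : x ∈ E <;> simp [h1, h2]
      · simp [h1], sum_comm]
  refine sum_congr rfl fun E _ => ?_
  split_ifs
  · rw [Nat.card_eq_fintype_card, Fintype.card_subtype, ← mul_sum, sum_boole]
  · simp

noncomputable def cj (x : G) : Subgroup G ≃o Subgroup G := (MulAut.conj x).mapSubgroup

omit [Fintype G] in
theorem card_cj (x : G) (E : Subgroup G) : Nat.card (cj x E) = Nat.card E :=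
  Subgroup.card_map_of_injective (MulAut.conj x).injective

theorem pg_cj (x : G) (E : Subgroup G) : IsPGroup p (cj x E) ↔ IsPGroup p E := by
  simp only [IsPGroup.iff_card, card_cj]

@[reducible] def act (R : Subgroup G) : MulAction R (Subgroup G) :=
  MulAction.compHom _ (MulAut.conj.comp R.subtype)

omit [Fintype G] in
theorem stab (R E : Subgroup G) : (@stabilizer R _ _ (act R) E).index *
    Nat.card (R ⊓ Subgroup.normalizer E : Subgroup G) = Nat.card R := by
  have : @stabilizer R _ _ (act R) E = (Subgroup.normalizer E).subgroupOf R := by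
    ext x
    exact (Subgroup.mem_normalizer_iff_map_conj_eq).symm
  rw [this, ← Subgroup.card_mul_index ((Subgroup.normalizer (E : Set G)).subgroupOf R), mul_comm,
    ← Subgroup.inf_subgroupOf_right, inf_comm,
    Nat.card_congr (Subgroup.subgroupOfEquivOfLe inf_le_right).toEquiv]

theorem brown (D : Subgroup G) (hD : IsPGroup p D) (R : Subgroup G) (hR : IsPGroup p R)
    (h : R ≤ Subgroup.normalizer D) :
    (Nat.card R : ℤ) ∣ mob (fun E : Subgroup G => IsPGroup p E) D * Nat.card (R ⊓ D : Subgroup G) := by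
  induction D using WellFoundedGT.induction generalizing R with | ind D ih => ?_
  have e := count R D (Y := fun E => IsPGroup p E)
  rw [split_le (Y := fun E : Subgroup G => IsPGroup p E) hD, sum_congr rfl
    (g := fun x => if x ∈ R then (1 : ℤ) else 0) fun x _ => by
      split_ifs with hx
      · exact mob_sum (hD.to_sup_of_normal_left' (hR.to_le (Subgroup.zpowers_le.2 hx))
          (Subgroup.zpowers_le.2 (h hx)))
      · rfl, sum_boole, ← Fintype.card_subtype, ← Nat.card_eq_fintype_card] at e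
  rw [eq_sub_of_add_eq e]
  refine dvd_sub dvd_rfl (@orbit_sum R _ _ (act R) _ _ _ (fun x E => ?_) fun E => ?_)
  · have h1 : cj x.1 D = D := Subgroup.mem_normalizer_iff_map_conj_eq.1 (h x.2)
    have h2 : cj x.1 R = R := Subgroup.mem_normalizer_iff_map_conj_eq.1 (R.le_normalizer x.2)
    change (if D < cj x.1 E ∧ IsPGroup p (cj x.1 E) then mob _ (cj x.1 E) *
      Nat.card (R ⊓ cj x.1 E : Subgroup G) else 0) = _
    have h3 : D < cj x.1 E ↔ D < E := by rw [← (cj x.1).lt_iff_lt (x := D) (y := E), h1]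
    have h4 : R ⊓ cj x.1 E = cj x.1 (R ⊓ E) := by rw [(cj x.1).map_inf, h2]
    simp only [pg_cj, mob_inv (Y := fun E : Subgroup G => IsPGroup p E) (cj x.1) (pg_cj x.1), h3, h4, card_cj]
  · split_ifs with hE
    · have := ih E hE.1 hE.2 (R ⊓ Subgroup.normalizer E) (hR.to_le inf_le_left) inf_le_right
      rw [inf_assoc, inf_eq_right.2 E.le_normalizer] at this
      rw [← stab R E, Nat.cast_mul]
      exact mul_dvd_mul_left _ this
    · simp

omit [Fintype G] in
theorem cnt {B : Type} [Group B] [Fintype B] {r : ℕ} (hB : Nat.card B = p ^ (r + 1))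
    {H : Subgroup B} (hH : H ≠ ⊤) : p ^ r ∣ #{x | H ⊔ Subgroup.zpowers x ≠ ⊤} := by
  have hP := IsPGroup.of_card hB
  have := hP.isNilpotent
  have hN : ∀ M : Subgroup B, IsCoatom M → M.Normal := fun M =>
    Subgroup.NormalizerCondition.normal_of_coatom M Group.normalizerCondition_of_isNilpotent
  have hc : ∀ M : Subgroup B, IsCoatom M → Nat.card M = p ^ r := fun M hM => by
    obtain ⟨n, hn⟩ := IsPGroup.iff_card.1 (hP.to_subgroup M)
    have h1 : n < r + 1 := (Nat.pow_lt_pow_iff_right hp.out.one_lt).1 (by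
      rw [← hn, ← hB]
      exact (Subgroup.card_le_card_group M).lt_of_ne fun e =>
        hM.1 ((Subgroup.card_eq_iff_eq_top M).1 e))
    obtain ⟨K, k1, k2⟩ := Sylow.exists_subgroup_card_pow_succ (hB ▸ pow_dvd_pow p h1) hn
    have : K = ⊤ := hM.2 K (k2.lt_of_ne fun e => by
      rw [← e, hn] at k1; exact absurd (Nat.pow_right_injective hp.out.two_le k1) (by omega))
    rw [this, Subgroup.card_top, hB] at k1
    rw [hn, Nat.succ_injective (Nat.pow_right_injective hp.out.two_le k1)]
  have hx : ∀ M : Subgroup B, IsCoatom M → ∀ x, x ^ p ∈ M := fun M hM x => by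
    have := hN M hM
    have h1 := M.card_mul_index
    rw [hc M hM, hB, pow_succ] at h1
    rw [← Nat.eq_of_mul_eq_mul_left (pow_pos hp.out.pos r) h1]
    exact M.pow_index_mem x
  by_cases h : ∀ x, H ⊔ Subgroup.zpowers x ≠ ⊤
  · rw [filter_true_of_mem fun x _ => h x, card_univ, ← Nat.card_eq_fintype_card, hB]
    exact pow_dvd_pow p r.le_succ
  push Not at h
  obtain ⟨y, hy⟩ := h
  obtain ⟨M, hM, hle⟩ := (eq_top_or_exists_le_coatom H).resolve_left hH
  rw [← hc M hM, Nat.card_eq_fintype_card, Fintype.card_subtype]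
  refine dvd_of_eq (congrArg _ (filter_congr fun x _ => ⟨fun h => ne_top_of_le_ne_top hM.1
    (sup_le hle (Subgroup.zpowers_le.2 h)), fun h => ?_⟩))
  obtain ⟨M', hM', hle'⟩ := (eq_top_or_exists_le_coatom _).resolve_left h
  have := hN M hM
  have := hN M' hM'
  have hx' : x ∈ (M ⊓ M') ⊔ Subgroup.zpowers y := (eq_top_iff.2 (hy.symm.trans_le
    (sup_le_sup_right (le_inf hle (le_sup_left.trans hle')) _))).symm ▸ trivial
  obtain ⟨n, hn, _, ⟨k, rfl⟩, e⟩ := Subgroup.mem_sup_of_normal_left.1 hx'
  rw [Subgroup.mem_inf] at hn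
  beta_reduce at e
  have h1 : y ^ k ∈ M' := by
    have := mul_mem (inv_mem hn.2) (hle' (Subgroup.mem_sup_right (Subgroup.mem_zpowers x)))
    rwa [← e, inv_mul_cancel_left] at this
  by_cases hk : (p : ℤ) ∣ k
  · obtain ⟨j, rfl⟩ := hk
    rw [← e]
    exact mul_mem hn.1 (by rw [zpow_mul, zpow_natCast]; exact zpow_mem (hx M hM y) j)
  · obtain ⟨a, b, hab⟩ := (Nat.prime_iff_prime_int.1 hp.out).irreducible.coprime_iff_not_dvd.2 hk
    refine (hM'.1 (eq_top_iff.2 (hy.symm.trans_le (sup_le (le_sup_left.trans hle')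
      (Subgroup.zpowers_le.2 ?_))))).elim
    rw [← zpow_one y, ← hab, zpow_add, mul_comm a, mul_comm b, zpow_mul, zpow_mul, zpow_natCast]
    exact mul_mem (zpow_mem (hx M' hM' y) a) (zpow_mem h1 b)

theorem hall {D : Subgroup G} {r : ℕ} (hD : Nat.card D = p ^ (r + 1)) (H : Subgroup G)
    (hH : H < D) : ((p ^ r : ℕ) : ℤ) ∣ mob (· < D) H * Nat.card H := by
  induction H using WellFoundedGT.induction with | ind H ih => ?_
  have e := count D H (Y := (· < D))
  rw [split_le (Y := (· < D)) hH, inf_eq_right.2 hH.le, sum_congr rfl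
    (g := fun x => if x ∈ D ∧ H ⊔ Subgroup.zpowers x ≠ D then (1 : ℤ) else 0) fun x _ => by
      by_cases hx : x ∈ D
      · rcases (sup_le hH.le (Subgroup.zpowers_le.2 hx)).eq_or_lt with h | h
        · simp only [hx, h, ne_eq, not_true, and_false, if_true, if_false]
          exact sum_eq_zero fun E _ => if_neg fun h => h.2.not_ge h.1
        · simp only [hx, h.ne, ne_eq, not_false_iff, and_true, if_true]
          exact mob_sum h
      · simp [hx], sum_boole] at e
  rw [eq_sub_of_add_eq e]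
  refine dvd_sub (Int.natCast_dvd_natCast.2 ?_) (dvd_sum fun E _ => ?_)
  · convert cnt hD (H := H.subgroupOf D) fun h => hH.not_ge (Subgroup.subgroupOf_eq_top.1 h) using 1
    refine (card_bij (fun x _ => x.1) (fun x hx => ?_) (fun _ _ _ _ => Subtype.ext)
      fun x hx => ⟨⟨x, (mem_filter.1 hx).2.1⟩, ?_, rfl⟩).symm
    · simp only [mem_filter, mem_univ, true_and, x.2] at hx ⊢
      refine fun h => hx (Subgroup.map_injective D.subtype_injective ?_)
      simpa [Subgroup.map_sup, hH.le, ← MonoidHom.range_eq_map] using h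
    · simp only [mem_filter, mem_univ, true_and] at hx ⊢
      refine fun h => hx.2 ?_
      simpa [Subgroup.map_sup, hH.le, ← MonoidHom.range_eq_map] using congrArg (·.map D.subtype) h
  · split_ifs with hE
    · rw [inf_eq_right.2 hE.2.le]; exact ih E hE.1 hE.2
    · simp

end Pool.Agent.H.MP_3e56e8_al
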